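import Pool.Agent.Helper97.Fuchs.Base
import Pool.Agent.Helper24.Fuchs.E

/-!
# FU-M3a: the area argument
-/

namespace Pool.Agent.Helper97.Fuchs

open MeasureTheory Matrix UpperHalfPlane Filter Topology
open scoped MatrixGroups ENNReal BigOperators

noncomputable section

/-- `nrm g ^ 2 = 2 cosh (dist i (g i))` -/
lemma m3_nrm_sq_eq (g : SL(2, ℝ)) : nrm g ^ 2 = 2 * Real.cosh (dist I (g • I)) := by
  rw [UpperHalfPlane.cosh_dist]
  have hd := det_eq g
  have hpos : 0 < g 1 0 ^ 2 + g 1 1 ^ 2 := by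
    rcases eq_or_ne (g 1 0) 0 with h1 | h1
    · rcases eq_or_ne (g 1 1) 0 with h2 | h2
      · rw [h1, h2] at hd; simp at hd
      · positivity
    · positivity
  have h1 : dist ((I : ℍ) : ℂ) ((g • I : ℍ) : ℂ) ^ 2 = (rp g) ^ 2 + (1 - 1 / (g 1 0 ^ 2 + g 1 1 ^ 2)) ^ 2 := by
    rw [Complex.dist_eq, Complex.sq_norm, Complex.normSq_apply]
    rw [Complex.sub_re, Complex.sub_im, coe_re, coe_im, coe_re, coe_im, re_smul_I, im_smul_I]
    simp
    ring
  rw [h1, im_smul_I, nrm_sq]
  simp only [I_im, rp]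
  field_simp
  linear_combination ((g 0 0 * g 1 1 - g 0 1 * g 1 0) + 1) * hd

/-- elements moving `i` by at most `1` have norm at most `2` -/
lemma m3_nrm_le_two (g : SL(2, ℝ)) (h : dist I (g • I) ≤ 1) : nrm g ≤ 2 := by
  have h1 := m3_nrm_sq_eq g
  have h2 : Real.cosh (dist I (g • I)) ≤ Real.cosh 1 := by
    rw [Real.cosh_le_cosh]
    rw [abs_of_nonneg dist_nonneg]
    simpa using h
  have h3 : Real.cosh 1 ≤ 2 := by
    have h4 := Real.exp_one_lt_d9
    have h5 : Real.exp (-1) ≤ 1 := Real.exp_le_one_iff.2 (by norm_num)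
    rw [Real.cosh_eq]
    linarith
  nlinarith [nrm_nonneg g]

/-- invariance of the hyperbolic area under `SL(2,ℝ)` -/
lemma m3_vol_preimage (g : SL(2, ℝ)) (s : Set ℍ) : volume ((fun z : ℍ => g • z) ⁻¹' s) = volume s := by
  exact measure_preimage_smul volume (g : GL (Fin 2) ℝ) s

lemma m3_vol_ball (g : SL(2, ℝ)) (r : ℝ) : volume (Metric.ball (g • I) r) = volume (Metric.ball (I : ℍ) r) := by
  rw [← m3_vol_preimage g (Metric.ball (g • I) r)]
  congr 1
  ext z
  simp [Metric.mem_ball, dist_smul]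

set_option linter.unusedVariables false

lemma m3_vol_ball_pos (r : ℝ) (hr : 0 < r) : 0 < volume (Metric.ball (I : ℍ) r) := by
  rw [pos_iff_ne_zero]
  intro h0
  have hac : (volume.comap UpperHalfPlane.coe : Measure ℍ) ≪ (volume : Measure ℍ) := by
    rw [volume_def]
    refine withDensity_absolutelyContinuous' ?_ ?_
    · refine Measurable.aemeasurable ?_
      refine Continuous.measurable ?_
      refine ENNReal.continuous_coe.comp ?_
      refine .pow (.div₀ continuous_const ?_ ?_) _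
      · exact continuous_im.subtype_mk _
      · exact fun x ↦ NNReal.ne_iff.mp x.im_ne_zero
    · refine ae_of_all _ fun z => ?_
      have : (NNReal.mk z.im z.im_pos.le) ≠ 0 := NNReal.ne_iff.mp z.im_ne_zero
      exact ENNReal.coe_ne_zero.2 (pow_ne_zero 2 (one_div_ne_zero this))
  have h1 := hac h0
  rw [measurableEmbedding_coe.comap_apply] at h1
  have h2 : IsOpen (UpperHalfPlane.coe '' (Metric.ball (I : ℍ) r)) :=
    isOpenEmbedding_coe.isOpenMap _ Metric.isOpen_ball
  exact (h2.measure_pos volume ⟨_, ⟨I, Metric.mem_ball_self hr, rfl⟩⟩).ne' h1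

lemma m3_countable {ε : ℝ} {Γ : Subgroup SL(2, ℝ)} (hd : Disc ε Γ) : Countable Γ := by
  obtain ⟨C, hC, h⟩ := count_ball ε hd.1
  have h1 : (Γ : Set SL(2, ℝ)) = ⋃ n : ℕ, {g : SL(2, ℝ) | g ∈ Γ ∧ nrm g ≤ (n : ℝ) + 1} := by
    ext g
    simp only [SetLike.mem_coe, Set.mem_iUnion, Set.mem_ofPred_eq, exists_and_left]
    constructor
    · intro hg
      obtain ⟨n, hn⟩ := exists_nat_ge (nrm g)
      exact ⟨hg, n, by linarith⟩
    · exact fun hg => hg.1
  have h2 : (Γ : Set SL(2, ℝ)).Countable := by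
    rw [h1]
    refine Set.countable_iUnion fun n => ?_
    exact (h Γ hd ((n : ℝ) + 1) (by linarith [Nat.cast_nonneg (α := ℝ) n])).1.countable
  exact h2.to_subtype

theorem area_mult {ε : ℝ} {Γ : Subgroup SL(2, ℝ)} (hd : Disc ε Γ)
    (F : Set ℍ) (hF : MeasurableSet F) (hcov : ∀ z : ℍ, ∃ g ∈ Γ, g • z ∈ F)
    (Q : Set ℍ) (hQ : MeasurableSet Q) (m : ℕ)
    (hm : ∀ z : ℍ, {g : SL(2, ℝ) | g ∈ Γ ∧ g • z ∈ Q}.Finite ∧
      {g : SL(2, ℝ) | g ∈ Γ ∧ g • z ∈ Q}.ncard ≤ m) :
    volume Q ≤ m * volume F := by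
  have := m3_countable hd
  have hmeas : ∀ g : SL(2, ℝ), Measurable fun z : ℍ => g • z := fun g =>
    (continuous_const_smul g).measurable
  have h1 : Q ⊆ ⋃ g : Γ, (fun z : ℍ => (g : SL(2, ℝ)) • z) ⁻¹'
      ((fun z : ℍ => (g : SL(2, ℝ))⁻¹ • z) ⁻¹' Q ∩ F) := by
    intro z hz
    obtain ⟨g, hg, hgz⟩ := hcov z
    rw [Set.mem_iUnion]
    exact ⟨⟨g, hg⟩, by simpa using ⟨hz, hgz⟩⟩
  calc volume Q ≤ ∑' g : Γ, volume ((fun z : ℍ => (g : SL(2, ℝ)) • z) ⁻¹'
      ((fun z : ℍ => (g : SL(2, ℝ))⁻¹ • z) ⁻¹' Q ∩ F)) :=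
        (measure_mono h1).trans (measure_iUnion_le _)
    _ = ∑' g : Γ, ∫⁻ z in F, ((fun z : ℍ => (g : SL(2, ℝ))⁻¹ • z) ⁻¹' Q).indicator 1 z := by
        refine tsum_congr fun g => ?_
        rw [m3_vol_preimage, lintegral_indicator_one ((hmeas _) hQ), Measure.restrict_apply ((hmeas _) hQ)]
    _ = ∫⁻ z in F, ∑' g : Γ, ((fun z : ℍ => (g : SL(2, ℝ))⁻¹ • z) ⁻¹' Q).indicator 1 z := by
        rw [lintegral_tsum]
        intro g
        exact (measurable_one.indicator ((hmeas _) hQ)).aemeasurable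
    _ ≤ ∫⁻ z in F, (m : ℝ≥0∞) := by
        refine lintegral_mono fun z => ?_
        have e1 : ∑' g : Γ, ((fun z : ℍ => (g : SL(2, ℝ))⁻¹ • z) ⁻¹' Q).indicator (1 : ℍ → ℝ≥0∞) z
            = ∑' g : Γ, ((fun z : ℍ => (g : SL(2, ℝ)) • z) ⁻¹' Q).indicator (1 : ℍ → ℝ≥0∞) z := by
          rw [← (Equiv.inv Γ).tsum_eq]
          refine tsum_congr fun g => ?_
          simp
        have hfin : {g : Γ | (g : SL(2, ℝ)) • z ∈ Q}.Finite := by
          refine Set.Finite.of_finite_image (f := Subtype.val) ?_ Subtype.val_injective.injOn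
          refine (hm z).1.subset ?_
          rintro _ ⟨g, hg, rfl⟩
          exact ⟨g.2, hg⟩
        show ∑' g : Γ, ((fun z : ℍ => (g : SL(2, ℝ))⁻¹ • z) ⁻¹' Q).indicator (1 : ℍ → ℝ≥0∞) z ≤ m
        rw [e1, tsum_eq_sum (s := hfin.toFinset)]
        · calc ∑ g ∈ hfin.toFinset, ((fun z : ℍ => (g : SL(2, ℝ)) • z) ⁻¹' Q).indicator (1 : ℍ → ℝ≥0∞) z
              ≤ ∑ g ∈ hfin.toFinset, 1 := Finset.sum_le_sum fun g _ => by
                by_cases h : z ∈ ((fun z : ℍ => (g : SL(2, ℝ)) • z) ⁻¹' Q)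
                · rw [Set.indicator_of_mem h]; rfl
                · rw [Set.indicator_of_notMem h]; simp
            _ = (hfin.toFinset.card : ℝ≥0∞) := by simp
            _ ≤ m := by
                have : hfin.toFinset.card ≤ m := by
                  refine le_trans ?_ (hm z).2
                  rw [← Set.ncard_eq_toFinset_card _ hfin, ← Set.ncard_image_of_injective _ Subtype.val_injective]
                  refine Set.ncard_le_ncard ?_ (hm z).1
                  rintro _ ⟨g, hg, rfl⟩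
                  exact ⟨g.2, hg⟩
                exact_mod_cast this
        · intro g hg
          rw [Set.Finite.mem_toFinset] at hg
          refine Set.indicator_of_notMem ?_ _
          exact hg
    _ = m * volume F := by rw [setLIntegral_const]

theorem small_elt {ε : ℝ} {Γ : Subgroup SL(2, ℝ)} (hd : Disc ε Γ)
    (F : Set ℍ) (hF : MeasurableSet F) (hvol : volume F < ∞)
    (hcov : ∀ z : ℍ, ∃ g ∈ Γ, g • z ∈ F) :
    ∀ r : ℝ, 0 < r → ∃ R : ℝ, ∀ h : SL(2, ℝ), (∀ g ∈ Γ, R < dist (h • I) (g • I)) →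
      ∃ g ∈ Γ, g ≠ 1 ∧ d1 (h⁻¹ * g * h) < r := by
  intro r hr
  by_contra hcon
  push Not at hcon
  choose f hf1 hf2 using hcon
  -- far away points
  have hseq : ∀ K : ℕ, ∃ h : ℕ → SL(2, ℝ),
      (∀ k < K, ∀ g ∈ Γ, g ≠ 1 → r ≤ d1 ((h k)⁻¹ * g * h k)) ∧
      (∀ k < K, ∀ j < k, ∀ g ∈ Γ, 10 < dist (h k • I) (g • h j • I)) := by
    intro K
    induction K with
    | zero => exact ⟨fun _ => 1, by simp, by simp⟩
    | succ K ih =>
      obtain ⟨h, ha, hb⟩ := ih
      set B : ℝ := 10 + ∑ j ∈ Finset.range K, dist (h j • I) I with hB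
      refine ⟨Function.update h K (f B), ?_, ?_⟩
      · intro k hk g hg hg1
        rcases Nat.lt_succ_iff_lt_or_eq.1 hk with hk | rfl
        · rw [Function.update_of_ne (by omega)]
          exact ha k hk g hg hg1
        · rw [Function.update_self]
          exact hf2 B g hg hg1
      · intro k hk j hj g hg
        rcases Nat.lt_succ_iff_lt_or_eq.1 hk with hk | rfl
        · rw [Function.update_of_ne (by omega), Function.update_of_ne (by omega)]
          exact hb k hk j hj g hg
        · rw [Function.update_self, Function.update_of_ne (by omega)]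
          have h1 := hf1 B g hg
          have h2 : dist (f B • I) (g • I) ≤ dist (f B • I) (g • h j • I) + dist (h j • I) I := by
            have := dist_triangle (f B • I) (g • h j • I) (g • I)
            rwa [dist_smul] at this
          have h3 : dist (h j • I) I ≤ ∑ j ∈ Finset.range k, dist (h j • I) I :=
            Finset.single_le_sum (f := fun j => dist (h j • I) I) (fun _ _ => dist_nonneg)
              (Finset.mem_range.2 hj)
          linarith
  obtain ⟨C, hC, hcount⟩ := count_ball (r / 2) (by linarith)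
  set m : ℕ := ⌈C * 2 ^ 8⌉₊ with hm
  have hmain : ∀ K : ℕ, (K : ℝ≥0∞) * volume (Metric.ball (I : ℍ) (1 / 2)) ≤ m * volume F := by
    intro K
    obtain ⟨h, ha, hb⟩ := hseq K
    have hb' : ∀ k < K, ∀ j < K, ∀ g ∈ Γ, dist (h k • I) (g • h j • I) ≤ 10 → k = j := by
      intro k hk j hj g hg hdist
      rcases lt_trichotomy k j with hlt | heq | hgt
      · exfalso
        have := hb j hj k hlt g⁻¹ (inv_mem hg)
        have h2 : dist (h j • I) (g⁻¹ • h k • I) = dist (h k • I) (g • h j • I) := by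
          rw [← dist_smul g (h j • I) (g⁻¹ • h k • I), smul_inv_smul, dist_comm]
        linarith
      · exact heq
      · exfalso
        have := hb k hk j hgt g hg
        linarith
    have hvolQ : volume (⋃ k : Fin K, Metric.ball (h k • I) (1 / 2)) =
        (K : ℝ≥0∞) * volume (Metric.ball (I : ℍ) (1 / 2)) := by
      rw [measure_iUnion]
      · rw [tsum_fintype]
        simp only [m3_vol_ball]
        simp
      · intro k j hkj
        refine Set.disjoint_left.2 fun z hz hz' => hkj ?_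
        rw [Metric.mem_ball] at hz hz'
        have h1 : dist (h k • I) ((1 : SL(2, ℝ)) • h j • I) ≤ 10 := by
          rw [one_smul]
          have := dist_triangle (h k • I) z (h j • I)
          rw [dist_comm (h k • I) z] at this
          linarith
        exact Fin.ext (hb' k k.2 j j.2 1 (one_mem _) h1)
      · exact fun k => Metric.isOpen_ball.measurableSet
    rw [← hvolQ]
    refine area_mult hd F hF hcov _ (MeasurableSet.iUnion fun k => Metric.isOpen_ball.measurableSet)
      m ?_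
    intro z
    rcases Set.eq_empty_or_nonempty {g : SL(2, ℝ) | g ∈ Γ ∧ g • z ∈ ⋃ k : Fin K,
      Metric.ball (h k • I) (1 / 2)} with he | ⟨g0, hg0, hg0z⟩
    · rw [he]; simp
    · rw [Set.mem_iUnion] at hg0z
      obtain ⟨k, hk⟩ := hg0z
      rw [Metric.mem_ball] at hk
      -- conjugated group
      let Γk : Subgroup SL(2, ℝ) := Γ.comap (MulAut.conj (h k)).toMonoidHom
      have hmemk : ∀ g, g ∈ Γk ↔ h k * g * (h k)⁻¹ ∈ Γ := fun g => by
        simp [Γk, Subgroup.mem_comap]
      have hdk : Disc (r / 2) Γk := by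
        refine ⟨by linarith, ?_⟩
        intro g hg hsmall
        rw [hmemk] at hg
        by_contra hne
        have hne' : h k * g * (h k)⁻¹ ≠ 1 := by
          intro h0
          apply hne
          have : g = (h k)⁻¹ * (h k * g * (h k)⁻¹) * h k := by group
          rw [this, h0]; group
        have h1 := ha k k.2 _ hg hne'
        have h2 : (h k)⁻¹ * (h k * g * (h k)⁻¹) * h k = g := by group
        rw [h2] at h1
        have h00 := hsmall 0 0
        have h01 := hsmall 0 1
        have h10 := hsmall 1 0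
        have h11 := hsmall 1 1
        simp at h00 h01 h10 h11
        rw [abs_lt] at h00 h01 h10 h11
        have h3 : d1 g < r := by
          unfold d1
          rw [Real.sqrt_lt' hr]
          nlinarith
        linarith
      obtain ⟨hfin, hcard⟩ := hcount Γk hdk 2 (by norm_num)
      -- injection
      have himg : (fun g => (h k)⁻¹ * (g * g0⁻¹) * h k) '' {g : SL(2, ℝ) | g ∈ Γ ∧ g • z ∈ ⋃ k : Fin K,
          Metric.ball (h k • I) (1 / 2)} ⊆ {g : SL(2, ℝ) | g ∈ Γk ∧ nrm g ≤ 2} := by
        rintro _ ⟨g, ⟨hg, hgz⟩, rfl⟩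
        rw [Set.mem_iUnion] at hgz
        obtain ⟨j, hj⟩ := hgz
        rw [Metric.mem_ball] at hj
        have h1 : dist (h j • I) ((g * g0⁻¹) • h k • I) ≤ 1 := by
          have e1 := dist_triangle (h j • I) (g • z) ((g * g0⁻¹) • h k • I)
          have e2 : dist (g • z) ((g * g0⁻¹) • h k • I) = dist (g0 • z) (h k • I) := by
            rw [← dist_smul (g * g0⁻¹) (g0 • z) (h k • I), smul_smul (g * g0⁻¹) g0 z,
              inv_mul_cancel_right]
          rw [e2, dist_comm (h j • I) (g • z)] at e1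
          linarith
        have hjk : j = k := Fin.ext (hb' j j.2 k k.2 (g * g0⁻¹) (mul_mem hg (inv_mem hg0)) (by linarith))
        subst hjk
        refine ⟨?_, ?_⟩
        · rw [hmemk]
          have : h j * ((h j)⁻¹ * (g * g0⁻¹) * h j) * (h j)⁻¹ = g * g0⁻¹ := by group
          rw [this]
          exact mul_mem hg (inv_mem hg0)
        · apply m3_nrm_le_two
          rw [← dist_smul (h j) I, mul_smul, mul_smul, smul_inv_smul]
          exact h1
      have hinj : Function.Injective (fun g => (h k)⁻¹ * (g * g0⁻¹) * h k) := by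
        intro a b hab
        simpa using hab
      refine ⟨Set.Finite.of_finite_image (hfin.subset himg) hinj.injOn, ?_⟩
      rw [← Set.ncard_image_of_injective _ hinj]
      refine (Set.ncard_le_ncard himg hfin).trans ?_
      rw [hm]
      exact_mod_cast hcard.trans (Nat.le_ceil _)
  -- contradiction
  have hpos := m3_vol_ball_pos (1 / 2) (by norm_num)
  obtain ⟨K, hK⟩ := ENNReal.exists_nat_mul_gt hpos.ne' (ENNReal.mul_ne_top (ENNReal.natCast_ne_top m) hvol.ne)
  exact absurd (hmain K) (not_le.2 hK)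

end

end Pool.Agent.Helper97.Fuchs
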