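import Pool.Agent.Helper97.Fuchs.Base2

/-!
# FU-L2: the action of `PSL(2,ℝ)` and the critical exponent
-/

namespace Pool.Agent.Helper97.Fuchs

open MeasureTheory Matrix UpperHalfPlane Filter Topology
open scoped MatrixGroups ENNReal BigOperators

noncomputable section

lemma l2_neg_smul (g : SL(2, ℝ)) (z : ℍ) : (-g) • z = g • z := by
  apply UpperHalfPlane.ext
  rw [coe_specialLinearGroup_apply, coe_specialLinearGroup_apply]
  simp only [Matrix.SpecialLinearGroup.coe_neg, Matrix.neg_apply, map_neg]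
  rw [← neg_div_neg_eq]
  congr 1 <;> (push_cast; ring)

theorem actH_mk (g : SL(2, ℝ)) (z : ℍ) : actH (QuotientGroup.mk g) z = g • z := by
  have h1 : (QuotientGroup.mk g : PSL(2, ℝ)) =
      QuotientGroup.mk (Quotient.out (QuotientGroup.mk g : PSL(2, ℝ)) : SL(2, ℝ)) :=
    (QuotientGroup.out_eq' _).symm
  unfold actH
  rcases (mk_eq_mk_iff _ _).1 h1 with h | h
  · rw [h]
  · rw [h, l2_neg_smul]

/-- the summand on the `PSL` side -/
def l2F (s : ℝ) (g : PSL(2, ℝ)) : ℝ := Real.exp (-s * dist I (actH g I))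

lemma l2_compare (s : ℝ) (hs : 0 ≤ s) (g : SL(2, ℝ)) :
    nrm g ^ (-(2 * s)) ≤ l2F s (QuotientGroup.mk g) ∧
      l2F s (QuotientGroup.mk g) ≤ (2 : ℝ) ^ s * nrm g ^ (-(2 * s)) := by
  have h1 := nrm_sq_cosh g
  have hd : 0 ≤ dist I (g • I) := dist_nonneg
  set d := dist I (g • I) with hdd
  have h2 : l2F s (QuotientGroup.mk g) = Real.exp (-s * d) := by
    unfold l2F; rw [actH_mk]
  have h3 : nrm g ^ (-(2 * s)) = (nrm g ^ 2) ^ (-s) := by
    rw [← Real.rpow_natCast, ← Real.rpow_mul (nrm_nonneg g)]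
    congr 1
    push_cast; ring
  have h4 : Real.exp (-s * d) = (Real.exp d) ^ (-s) := by
    rw [← Real.exp_mul]; congr 1; ring
  have h5 : Real.exp d ≤ nrm g ^ 2 := by
    rw [h1, Real.cosh_eq]
    have := Real.exp_pos (-d)
    linarith
  have h6 : nrm g ^ 2 ≤ 2 * Real.exp d := by
    rw [h1, Real.cosh_eq]
    have : Real.exp (-d) ≤ Real.exp d := Real.exp_le_exp.2 (by linarith)
    linarith
  rw [h2, h3, h4]
  constructor
  · exact Real.rpow_le_rpow_of_nonpos (Real.exp_pos d) h5 (by linarith)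
  · have h7 : (2 * Real.exp d) ^ (-s) ≤ (nrm g ^ 2) ^ (-s) :=
      Real.rpow_le_rpow_of_nonpos (by have := nrm_pos g; positivity) h6 (by linarith)
    rw [Real.mul_rpow (by norm_num) (Real.exp_pos d).le] at h7
    have h8 : (2 : ℝ) ^ s * (2 : ℝ) ^ (-s) = 1 := by
      rw [← Real.rpow_add (by norm_num)]; simp
    calc (Real.exp d) ^ (-s) = (2 : ℝ) ^ s * ((2 : ℝ) ^ (-s) * (Real.exp d) ^ (-s)) := by
          rw [← mul_assoc, h8, one_mul]
      _ ≤ (2 : ℝ) ^ s * (nrm g ^ 2) ^ (-s) := mul_le_mul_of_nonneg_left h7 (by positivity)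

theorem exponent_iff (Γ : Subgroup PSL(2, ℝ)) (s : ℝ) (hs : 0 ≤ s) :
    (Summable fun g : Γ => Real.exp (-s * dist I (actH (g : PSL(2, ℝ)) I))) ↔
    (Summable fun g : Γ.comap (QuotientGroup.mk' (Subgroup.center SL(2, ℝ))) =>
      nrm (g : SL(2, ℝ)) ^ (-(2 * s))) := by
  classical
  set Γ' := Γ.comap (QuotientGroup.mk' (Subgroup.center SL(2, ℝ))) with hΓ'
  have hpos : ∀ g, 0 ≤ l2F s g := fun g => (Real.exp_pos _).le
  have hout : ∀ γ : PSL(2, ℝ), (QuotientGroup.mk (Quotient.out γ : SL(2, ℝ)) : PSL(2, ℝ)) = γ :=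
    fun γ => QuotientGroup.out_eq' γ
  constructor
  · intro h
    have h' : Summable fun γ : Γ => l2F s γ := h
    have h1 : Summable fun p : Γ × Bool => l2F s p.1 := by
      rw [summable_prod_of_nonneg (fun p => hpos _)]
      refine ⟨fun γ => Summable.of_finite, ?_⟩
      have : (fun γ : Γ => ∑' b : Bool, l2F s γ) = fun γ : Γ => 2 * l2F s γ := by
        funext γ
        rw [tsum_fintype]
        simp
      rw [this]
      exact h'.mul_left 2
    let φ : Γ' → Γ × Bool := fun g =>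
      (⟨QuotientGroup.mk (g : SL(2, ℝ)), g.2⟩,
        decide ((g : SL(2, ℝ)) = Quotient.out (QuotientGroup.mk (g : SL(2, ℝ)) : PSL(2, ℝ))))
    have hφ : Function.Injective φ := by
      intro a b hab
      have h1 : (QuotientGroup.mk (a : SL(2, ℝ)) : PSL(2, ℝ)) = QuotientGroup.mk (b : SL(2, ℝ)) :=
        congrArg (fun p : Γ × Bool => (p.1 : PSL(2, ℝ))) hab
      have h2 := congrArg (fun p : Γ × Bool => p.2) hab
      simp only [φ] at h2
      rw [← h1] at h2
      set o : SL(2, ℝ) := Quotient.out (QuotientGroup.mk (a : SL(2, ℝ)) : PSL(2, ℝ)) with ho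
      have ho1 : (QuotientGroup.mk o : PSL(2, ℝ)) = QuotientGroup.mk (a : SL(2, ℝ)) := hout _
      have ho2 : (QuotientGroup.mk o : PSL(2, ℝ)) = QuotientGroup.mk (b : SL(2, ℝ)) := by
        rw [ho1, h1]
      apply Subtype.ext
      rcases (mk_eq_mk_iff _ _).1 ho1 with ha | ha
      · rw [decide_eq_decide] at h2
        rw [ha, ← h2.1 ha]
      · rcases (mk_eq_mk_iff _ _).1 ho2 with hb | hb
        · rw [decide_eq_decide] at h2
          rw [hb, ← h2.2 hb]
        · rw [ha, hb]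
    have h2 : Summable ((fun p : Γ × Bool => l2F s p.1) ∘ φ) := h1.comp_injective hφ
    refine Summable.of_nonneg_of_le (fun g => Real.rpow_nonneg (nrm_nonneg _) _) (fun g => ?_) h2
    have h3 := (l2_compare s hs (g : SL(2, ℝ))).1
    have h4 : ((fun p : Γ × Bool => l2F s p.1) ∘ φ) g = l2F s (QuotientGroup.mk (g : SL(2, ℝ))) := rfl
    rw [h4]
    exact h3
  · intro h
    let ψ : Γ → Γ' := fun γ => ⟨Quotient.out (γ : PSL(2, ℝ)), by
      rw [hΓ', Subgroup.mem_comap]
      show (QuotientGroup.mk (Quotient.out (γ : PSL(2, ℝ)) : SL(2, ℝ)) : PSL(2, ℝ)) ∈ Γ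
      rw [hout]; exact γ.2⟩
    have hψ : Function.Injective ψ := by
      intro a b hab
      have h1 := congrArg (fun g : Γ' => (QuotientGroup.mk (g : SL(2, ℝ)) : PSL(2, ℝ))) hab
      simp only [ψ, hout] at h1
      exact Subtype.ext h1
    have h1 := (h.comp_injective hψ).mul_left ((2 : ℝ) ^ s)
    refine Summable.of_nonneg_of_le (fun γ => (Real.exp_pos _).le) (fun γ => ?_) h1
    have h2 := (l2_compare s hs (Quotient.out (γ : PSL(2, ℝ)))).2
    rw [hout] at h2
    exact h2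

end

end Pool.Agent.Helper97.Fuchs
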